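import Pool.Agent.Helper75.PY.Stmts2

/-!
# Row PM2: the parameter of a cyclic cubic algebra under a fractional transformation
-/

set_option autoImplicit false

universe u

open Module TensorProduct

namespace Pool.Agent.Helper49.PY

open Pool.Agent.Helper75.PX Pool.Agent.Helper75.PY

/-- the new cubic relation -/
theorem cub1 {C : Type*} [CommRing C] (t r d y : C) (h2 : (2 : C) = 0)
    (hd : (r ^ 3 + (t + 1) * r ^ 2 + t * r + 1) * d = 1)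
    (hy : y ^ 3 = t * y ^ 2 + (t + 3) * y + 1) :
    (r + (r ^ 2 + r + 1) * d * (y ^ 2 + (r + 1 + t) * y + (r ^ 2 + t * r))) ^ 3 =
      (t + (t ^ 2 + t + 1) * (r ^ 2 + r) * d) *
        (r + (r ^ 2 + r + 1) * d * (y ^ 2 + (r + 1 + t) * y + (r ^ 2 + t * r))) ^ 2 +
      ((t + (t ^ 2 + t + 1) * (r ^ 2 + r) * d) + 3) *
        (r + (r ^ 2 + r + 1) * d * (y ^ 2 + (r + 1 + t) * y + (r ^ 2 + t * r))) + 1 := by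
  linear_combination
    (5*t^3*r^6*d^3 + 15*t^3*r^5*d^3 + 33*t^3*r^4*d^3 + 41*t^3*r^3*d^3 + 39*t^3*r^2*d^3 +
      21*t^3*r*d^3 + 8*t^3*d^3 + 19*t^2*r^7*d^3 + 6*t^2*r^6*d^3*y + 69*t^2*r^6*d^3 +
      18*t^2*r^5*d^3*y + 152*t^2*r^5*d^3 + 37*t^2*r^4*d^3*y + 214*t^2*r^4*d^3 -
      3*t^2*r^4*d^2 + 44*t^2*r^3*d^3*y + 214*t^2*r^3*d^3 - 6*t^2*r^3*d^2 + 39*t^2*r^2*d^3*y
      + 148*t^2*r^2*d^3 - 9*t^2*r^2*d^2 + 20*t^2*r*d^3*y + 67*t^2*r*d^3 - 6*t^2*r*d^2 +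
      7*t^2*d^3*y + 17*t^2*d^3 - 3*t^2*d^2 + 21*t*r^8*d^3 + 12*t*r^7*d^3*y + 82*t*r^7*d^3 +
      4*t*r^6*d^3*y^2 + 45*t*r^6*d^3*y + 202*t*r^6*d^3 + 12*t*r^5*d^3*y^2 + 99*t*r^5*d^3*y +
      320*t*r^5*d^3 + 7*t*r^5*d^2 + 24*t*r^4*d^3*y^2 + 139*t*r^4*d^3*y + 382*t*r^4*d^3 -
      t*r^4*d^2*y + 12*t*r^4*d^2 + 28*t*r^3*d^3*y^2 + 137*t*r^3*d^3*y + 326*t*r^3*d^3 -
      2*t*r^3*d^2*y + 17*t*r^3*d^2 + 24*t*r^2*d^3*y^2 + 93*t*r^2*d^3*y + 211*t*r^2*d^3 -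
      3*t*r^2*d^2*y + 8*t*r^2*d^2 + 12*t*r*d^3*y^2 + 41*t*r*d^3*y + 88*t*r*d^3 - 2*t*r*d^2*y
      + 3*t*r*d^2 + 4*t*d^3*y^2 + 10*t*d^3*y + 24*t*d^3 - t*d^2*y - 2*t*d^2 + 7*r^9*d^3 +
      6*r^8*d^3*y + 30*r^8*d^3 + 3*r^7*d^3*y^2 + 24*r^7*d^3*y + 79*r^7*d^3 + r^6*d^3*y^3 +
      12*r^6*d^3*y^2 + 59*r^6*d^3*y + 142*r^6*d^3 + 6*r^6*d^2 + 3*r^5*d^3*y^3 +
      27*r^5*d^3*y^2 + 93*r^5*d^3*y + 194*r^5*d^3 + 3*r^5*d^2*y + 18*r^5*d^2 + 6*r^4*d^3*y^3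
      + 39*r^4*d^3*y^2 + 109*r^4*d^3*y + 205*r^4*d^3 + 6*r^4*d^2*y + 30*r^4*d^2 +
      7*r^3*d^3*y^3 + 39*r^3*d^3*y^2 + 91*r^3*d^3*y + 167*r^3*d^3 + 9*r^3*d^2*y + 30*r^3*d^2
      + 6*r^2*d^3*y^3 + 27*r^2*d^3*y^2 + 57*r^2*d^3*y + 103*r^2*d^3 + 6*r^2*d^2*y +
      18*r^2*d^2 + 3*r*d^3*y^3 + 12*r*d^3*y^2 + 23*r*d^3*y + 43*r*d^3 + 3*r*d^2*y + 6*r*d^2
      + d^3*y^3 + 3*d^3*y^2 + 6*d^3*y + 11*d^3) * hy +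
    (-2*t^6*d^2*y^2 - 2*t^6*d^2*y + 2*t^5*r*d^2*y^2 + 2*t^5*r*d^2*y - 8*t^5*d^2*y^2 -
      12*t^5*d^2*y - 2*t^5*d^2 - 2*t^4*r^2*d^2*y^2 - 2*t^4*r^2*d^2*y + 8*t^4*r*d^2*y^2 +
      12*t^4*r*d^2*y + 2*t^4*r*d^2 - 12*t^4*d^2*y^2 - 22*t^4*d^2*y - 6*t^4*d^2 + 2*t^4*d*y^2
      + 2*t^4*d*y - t^3*r^6*d^2 - 2*t^3*r^5*d^2*y - 2*t^3*r^5*d^2 + 4*t^3*r^4*d^2*y^2 +
      t^3*r^4*d^2*y - 3*t^3*r^4*d^2 + 10*t^3*r^3*d^2*y^2 + 6*t^3*r^3*d^2*y - 2*t^3*r^3*d^2 +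
      12*t^3*r^2*d^2*y^2 + 7*t^3*r^2*d^2*y - 3*t^3*r^2*d^2 + 28*t^3*r*d^2*y^2 +
      38*t^3*r*d^2*y + 6*t^3*r*d^2 - 2*t^3*r*d*y^2 - 2*t^3*r*d*y + 4*t^3*d^2*y^2 - t^3*d^2*y
      - 2*t^3*d^2 + 10*t^3*d*y^2 + 22*t^3*d*y + 2*t^3*d + 4*t^3 + t^2*r^6*d^2*y -
      t^2*r^6*d^2 + 14*t^2*r^5*d^2*y^2 + 12*t^2*r^5*d^2*y - t^2*r^5*d^2 + 41*t^2*r^4*d^2*y^2
      + 51*t^2*r^4*d^2*y + 4*t^2*r^4*d^2 - 4*t^2*r^4*d + 96*t^2*r^3*d^2*y^2 +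
      116*t^2*r^3*d^2*y + 13*t^2*r^3*d^2 - 6*t^2*r^3*d*y - 5*t^2*r^3*d + 97*t^2*r^2*d^2*y^2
      + 137*t^2*r^2*d^2*y + 18*t^2*r^2*d^2 + 2*t^2*r^2*d*y^2 - 3*t^2*r^2*d*y - 7*t^2*r^2*d +
      110*t^2*r*d^2*y^2 + 150*t^2*r*d^2*y + 21*t^2*r*d^2 - 8*t^2*r*d*y^2 - 29*t^2*r*d*y -
      3*t^2*r*d - 4*t^2*r + 11*t^2*d^2*y^2 + 32*t^2*d^2*y + 9*t^2*d^2 + 16*t^2*d*y^2 +
      27*t^2*d*y - 2*t^2*d - 4*t^2*y + 2*t^2 + 2*t*r^8*d^2 + 6*t*r^7*d^2*y + 3*t*r^7*d^2 +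
      16*t*r^6*d^2*y^2 + 20*t*r^6*d^2*y + 5*t*r^6*d^2 + 50*t*r^5*d^2*y^2 + 87*t*r^5*d^2*y +
      14*t*r^5*d^2 + 3*t*r^5*d + 131*t*r^4*d^2*y^2 + 189*t*r^4*d^2*y + 39*t*r^4*d^2 +
      7*t*r^4*d*y + 198*t*r^3*d^2*y^2 + 359*t*r^3*d^2*y + 80*t*r^3*d^2 + 16*t*r^3*d*y^2 +
      14*t*r^3*d*y + 3*t*r^3*d + 241*t*r^2*d^2*y^2 + 369*t*r^2*d^2*y + 89*t*r^2*d^2 +
      33*t*r^2*d*y^2 + 58*t*r^2*d*y + 4*t*r^2*d - 3*t*r^2 + 168*t*r*d^2*y^2 + 345*t*r*d^2*y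
      + 81*t*r*d^2 + 57*t*r*d*y^2 + 47*t*r*d*y + 9*t*r*d - 4*t*r*y - 5*t*r + 71*t*d^2*y^2 +
      41*t*d^2*y + 12*t*d^2 + 49*t*d*y^2 + 106*t*d*y + 8*t*d - 4*t*y^2 - 8*t*y - 2*t +
      r^9*d^2 + 3*r^8*d^2*y + 2*r^8*d^2 + 6*r^7*d^2*y^2 + 9*r^7*d^2*y + 3*r^7*d^2 +
      18*r^6*d^2*y^2 + 37*r^6*d^2*y + 7*r^6*d^2 + 4*r^6*d + 54*r^5*d^2*y^2 + 87*r^5*d^2*y +
      22*r^5*d^2 + 9*r^5*d*y + 4*r^5*d + 91*r^4*d^2*y^2 + 188*r^4*d^2*y + 52*r^4*d^2 +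
      15*r^4*d*y^2 + 18*r^4*d*y + 6*r^4*d + 154*r^3*d^2*y^2 + 267*r^3*d^2*y + 81*r^3*d^2 +
      27*r^3*d*y^2 + 65*r^3*d*y + 4*r^3*d + 7*r^3 + 145*r^2*d^2*y^2 + 317*r^2*d^2*y +
      90*r^2*d^2 + 76*r^2*d*y^2 + 93*r^2*d*y + 29*r^2*d + 12*r^2*y + 148*r*d^2*y^2 +
      214*r*d^2*y + 63*r*d^2 + 55*r*d*y^2 + 180*r*d*y + 43*r*d + 18*r*y^2 + 12*r*y + 5*r +
      11*d^2*y^2 + 109*d^2*y + 23*d^2 + 123*d*y^2 + 117*d*y + 63*d + 12*y^2 + 56*y - 13) * hd +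
    (t^7*r^2*d^3*y^2 + t^7*r^2*d^3*y + t^7*r*d^3*y^2 + t^7*r*d^3*y + 4*t^6*r^2*d^3*y^2 +
      6*t^6*r^2*d^3*y + t^6*r^2*d^3 + 4*t^6*r*d^3*y^2 + 6*t^6*r*d^3*y + t^6*r*d^3 +
      t^6*d^3*y^2 + t^6*d^3*y - t^6*d^2*y^2 - t^6*d^2*y + 6*t^5*r^2*d^3*y^2 +
      11*t^5*r^2*d^3*y + 3*t^5*r^2*d^3 - t^5*r^2*d^2*y^2 - t^5*r^2*d^2*y + 5*t^5*r*d^3*y^2 +
      10*t^5*r*d^3*y + 3*t^5*r*d^3 + 4*t^5*d^3*y^2 + 6*t^5*d^3*y + t^5*d^3 - 4*t^5*d^2*y^2 -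
      6*t^5*d^2*y - t^5*d^2 + 9*t^4*r^2*d^3*y^2 + 12*t^4*r^2*d^3*y + t^4*r^2*d^3 -
      6*t^4*r^2*d^2*y^2 - 12*t^4*r^2*d^2*y - t^4*r^2*d^2 - 2*t^4*r^2*d + 4*t^4*r*d^3*y^2 +
      5*t^4*r*d^3*y - t^4*r*d^2*y^2 - 5*t^4*r*d^2*y - 2*t^4*r*d + 10*t^4*d^3*y^2 +
      15*t^4*d^3*y + 3*t^4*d^3 - 7*t^4*d^2*y^2 - 12*t^4*d^2*y - 3*t^4*d^2 + t^4*d*y^2 +
      t^4*d*y + 23*t^3*r^2*d^3*y^2 + 38*t^3*r^2*d^3*y + 7*t^3*r^2*d^3 - 9*t^3*r^2*d^2*y^2 -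
      15*t^3*r^2*d^2*y - t^3*r^2*d^2 + 2*t^3*r^2*d*y - t^3*r^2*d + 24*t^3*r*d^3*y^2 +
      30*t^3*r*d^3*y + 3*t^3*r*d^3 + 3*t^3*r*d^2*y^2 + 2*t^3*r*d^2*y + 4*t^3*r*d^2 -
      t^3*r*d*y^2 + t^3*r*d*y - t^3*r*d + 10*t^3*d^3*y^2 + 21*t^3*d^3*y + 5*t^3*d^3 -
      5*t^3*d^2*y^2 - 13*t^3*d^2*y - 2*t^3*d^2 + 5*t^3*d*y^2 + 11*t^3*d*y - t^3*d + 2*t^3 +
      43*t^2*r^2*d^3*y^2 + 69*t^2*r^2*d^3*y + 14*t^2*r^2*d^3 - 17*t^2*r^2*d^2*y^2 -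
      35*t^2*r^2*d^2*y + 3*t^2*r^2*d*y^2 + 5*t^2*r^2*d*y - 3*t^2*r^2*d + 5*t^2*r*d^3*y^2 +
      59*t^2*r*d^3*y + 17*t^2*r*d^3 + 32*t^2*r*d^2*y^2 + 27*t^2*r*d^2*y + 5*t^2*r*d^2 -
      2*t^2*r*d*y^2 - 12*t^2*r*d*y + t^2*r*d - 2*t^2*r + 22*t^2*d^3*y^2 + 25*t^2*d^3*y +
      4*t^2*d^3 - 5*t^2*d^2*y^2 - 3*t^2*d^2*y + 4*t^2*d^2 + 8*t^2*d*y^2 + 15*t^2*d*y -
      2*t^2*d - 2*t^2*y + t^2 - t*r^2*d^3*y^2 + 47*t*r^2*d^3*y + 12*t*r^2*d^3 +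
      3*t*r^2*d^2*y^2 - 29*t*r^2*d^2*y - 11*t*r^2*d^2 + 2*t*r^2*d*y^2 - 4*t*r^2*d*y +
      6*t*r^2*d - 2*t*r^2 + 11*t*r*d^3*y^2 - 53*t*r*d^3*y - 8*t*r*d^3 - 4*t*r*d^2*y^2 +
      96*t*r*d^2*y + 6*t*r*d^2 + 21*t*r*d*y^2 - 6*t*r*d*y + 12*t*r*d - 2*t*r*y - 3*t*r -
      10*t*d^3*y^2 + 26*t*d^3*y + 6*t*d^3 + 9*t*d^2*y^2 - 36*t*d^2*y + t*d^2 + 26*t*d*y^2 +
      55*t*d*y + 5*t*d - 2*t*y^2 - 4*t*y - t + 4*r^3 + 20*r^2*d^3*y^2 - 30*r^2*d^3*y -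
      5*r^2*d^3 - 14*r^2*d^2*y^2 + 81*r^2*d^2*y + 8*r^2*d^2 + 32*r^2*d*y^2 + 11*r^2*d*y +
      19*r^2*d + 6*r^2*y - 34*r*d^3*y^2 - 31*r*d^3*y - 10*r*d^3 + 52*r*d^2*y^2 + 27*r*d^2*y
      + 13*r*d^2 + 17*r*d*y^2 + 81*r*d*y + 19*r*d + 9*r*y^2 + 6*r*y + r + 5*d^3*y^2 -
      35*d^3*y - 6*d^3 - 56*d^2*y^2 - 4*d^2*y - 20*d^2 + 54*d*y^2 + 29*d*y + 38*d + 6*y^2 +
      28*y - 7) * h2

/-- the new conjugate -/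
theorem cub2 {C : Type*} [CommRing C] (t r d y : C) (h2 : (2 : C) = 0)
    (hd : (r ^ 3 + (t + 1) * r ^ 2 + t * r + 1) * d = 1)
    (hy : y ^ 3 = t * y ^ 2 + (t + 3) * y + 1) :
    r + (r ^ 2 + r + 1) * d * ((y ^ 2 - (t + 1) * y - 2) ^ 2 +
        (r + 1 + t) * (y ^ 2 - (t + 1) * y - 2) + (r ^ 2 + t * r)) =
      (r + (r ^ 2 + r + 1) * d * (y ^ 2 + (r + 1 + t) * y + (r ^ 2 + t * r))) ^ 2 -
      ((t + (t ^ 2 + t + 1) * (r ^ 2 + r) * d) + 1) *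
        (r + (r ^ 2 + r + 1) * d * (y ^ 2 + (r + 1 + t) * y + (r ^ 2 + t * r))) - 2 := by
  linear_combination
    (-3*t*r^4*d^2 - 6*t*r^3*d^2 - 9*t*r^2*d^2 - t*r^2*d - 6*t*r*d^2 - t*r*d - 3*t*d^2 - t*d -
      2*r^5*d^2 - r^4*d^2*y - 6*r^4*d^2 - 2*r^3*d^2*y - 10*r^3*d^2 - 3*r^2*d^2*y -
      10*r^2*d^2 + r^2*d*y - 2*r^2*d - 2*r*d^2*y - 6*r*d^2 + r*d*y - 2*r*d - d^2*y - 2*d^2 +
      d*y - 2*d) * hy +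
    (t^2*r^3*d + t^2*r^2*d*y + t^2*r^2*d + t^2*r*d*y + t^2*r*d + 2*t^2*d*y^2 + 5*t^2*d*y + 2*t^2
      - t*r^4*d - 2*t*r^3*d*y - 3*t*r^2*d*y^2 - 3*t*r^2*d*y - t*r^2*d - 5*t*r*d*y^2 -
      9*t*r*d*y + t*r - 5*t*d*y^2 - t*d*y - t*d + 2*t - r^5*d - 2*r^4*d*y - r^4*d -
      3*r^3*d*y^2 - 4*r^3*d*y - r^3*d - 5*r^2*d*y^2 - 11*r^2*d*y - 3*r^2 - 11*r*d*y^2 -
      13*r*d*y - 4*r*d - 4*r*y + 2*r - 4*d*y^2 - 17*d*y - 4*d - 4*y^2 - 4*y - 4) * hd +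
    (-t^3*r^2*d^2*y^2 - 2*t^3*r^2*d^2*y - t^3*r^2*d - t^3*r*d^2*y^2 - 2*t^3*r*d^2*y - t^3*r*d -
      t^2*r^2*d^2*y^2 - 2*t^2*r^2*d^2*y - t^2*r^2*d - t^2*r*d^2*y^2 - 3*t^2*r*d^2*y -
      3*t^2*d^2*y^2 - 4*t^2*d^2*y + t^2*d*y^2 + 2*t^2*d*y - t^2*d + t^2 - t*r^2*d^2*y^2 -
      3*t*r^2*d^2*y + t*r^2*d^2 + 2*t*r^2*d*y^2 + t*r^2*d*y - t*r^2*d - 3*t*r*d^2*y^2 +
      t*r*d^2*y - t*r*d^2 + t*r*d*y^2 - 4*t*r*d*y + t*r*d + t*r - 5*t*d^2*y - t*d^2 -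
      t*d*y^2 - t*d*y - 3*t*d + t - 4*r^2*d^2*y^2 - 2*r^2*d^2*y - 3*r^2*d^2 - 6*r^2*d*y +
      4*r^2*d - 2*r^2 + r*d^2*y^2 - 3*r*d^2*y - r*d^2 - 5*r*d*y^2 - 6*r*d*y - 4*r*d - 2*r*y
      + 2*r + 5*d^2*y + d^2 + d*y^2 - 7*d*y - 2*y^2 - 2*y - 1) * h2

/-- the generator inside a commutative algebra -/
theorem exC {K A : Type u} [Field K] [Ring A] [Algebra K A] (y : A) (t : K)
    (hy : y * y * y = t • (y * y) + (t + 3) • y + 1) :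
    ∃ (C : Type u) (_ : CommRing C) (_ : Algebra K C) (φ : C →ₐ[K] A) (x : C),
      φ x = y ∧ x * x * x = t • (x * x) + (t + 3) • x + 1 := by
  let S := Algebra.adjoin K ({y} : Set A)
  letI : CommRing S := Algebra.adjoinCommRingOfComm K (by
    rintro a rfl b rfl
    rfl)
  refine ⟨S, inferInstance, inferInstance, S.val, ⟨y, Algebra.subset_adjoin rfl⟩, rfl, ?_⟩
  apply Subtype.ext
  exact hy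

theorem conj {K A : Type u} [Field K] [Ring A] [Algebra K A] {u y s : A} (h : u * y = s * u)
    (r k a b : K) : u * (r • (1 : A) + k • (y * y + a • y + b • (1 : A))) =
      (r • (1 : A) + k • (s * s + a • s + b • (1 : A))) * u := by
  have k1 : u * (y * y) = s * s * u := by
    rw [← mul_assoc, h, mul_assoc, h, mul_assoc]
  simp only [mul_add, add_mul, mul_smul_comm, smul_mul_assoc, k1, h, mul_one, one_mul]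

theorem st_PM2 : ST_PM2.{u} := by
  intro K A _ _ _ y u t c r h2 hD h
  obtain ⟨hy, huy, hu, c0⟩ := h
  obtain ⟨d, hd⟩ : ∃ d : K, d = (r ^ 3 + (t + 1) * r ^ 2 + t * r + 1)⁻¹ := ⟨_, rfl⟩
  have hDd : (r ^ 3 + (t + 1) * r ^ 2 + t * r + 1) * d = 1 := by
    rw [hd, mul_inv_cancel₀ hD]
  rw [div_eq_mul_inv, div_eq_mul_inv, ← hd]
  obtain ⟨C, iC, aC, φ, x, hx, hxx⟩ := exC y t hy
  have g2 : (2 : C) = 0 := by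
    have := congrArg (algebraMap K C) h2
    rwa [map_ofNat, map_zero] at this
  have gd : (algebraMap K C r ^ 3 + (algebraMap K C t + 1) * algebraMap K C r ^ 2 +
      algebraMap K C t * algebraMap K C r + 1) * algebraMap K C d = 1 := by
    have := congrArg (algebraMap K C) hDd
    simpa using this
  have gx : x ^ 3 = algebraMap K C t * x ^ 2 + (algebraMap K C t + 3) * x + 1 := by
    rw [Algebra.smul_def, Algebra.smul_def, map_add, map_ofNat] at hxx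
    linear_combination hxx
  have e1 := cub1 _ _ _ x g2 gd gx
  have e2 := cub2 _ _ _ x g2 gd gx
  obtain ⟨Y, hY⟩ : ∃ Y : C, Y = algebraMap K C r + (algebraMap K C r ^ 2 + algebraMap K C r + 1) *
      algebraMap K C d * (x ^ 2 + (algebraMap K C r + 1 + algebraMap K C t) * x +
        (algebraMap K C r ^ 2 + algebraMap K C t * algebraMap K C r)) := ⟨_, rfl⟩
  obtain ⟨T, hT⟩ : ∃ T : K, T = t + (t ^ 2 + t + 1) * (r ^ 2 + r) * d := ⟨_, rfl⟩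
  have hTC : algebraMap K C t + (algebraMap K C t ^ 2 + algebraMap K C t + 1) *
      (algebraMap K C r ^ 2 + algebraMap K C r) * algebraMap K C d = algebraMap K C T := by
    rw [hT]
    simp
  rw [← hY, hTC] at e1 e2
  have hYA : r • (1 : A) + ((r ^ 2 + r + 1) * d) •
      (y * y + (r + 1 + t) • y + (r ^ 2 + t * r) • (1 : A)) = φ Y := by
    rw [hY, ← hx]
    simp only [map_add, map_mul, map_pow, map_one, AlgHom.commutes, Algebra.smul_def, mul_one,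
      pow_two]
  rw [← hT, hYA]
  refine ⟨?_, ?_, hu, c0⟩
  · have e3 : Y * Y * Y = T • (Y * Y) + (T + 3) • Y + 1 := by
      rw [Algebra.smul_def, Algebra.smul_def, map_add, map_ofNat]
      linear_combination e1
    have := congrArg φ e3
    simpa only [map_add, map_mul, map_smul, map_one] using this
  · -- conjugation
    obtain ⟨s, hs⟩ : ∃ s : C, s = x ^ 2 - (algebraMap K C t + 1) * x - 2 := ⟨_, rfl⟩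
    rw [← hs] at e2
    have hsA : y * y - (t + 1) • y - 2 = φ s := by
      rw [hs, ← hx]
      simp only [map_sub, map_add, map_mul, map_pow, map_one, AlgHom.commutes,
        Algebra.smul_def, map_ofNat, pow_two]
    rw [hsA] at huy
    have hY2 : φ Y * φ Y - (T + 1) • φ Y - 2 = φ (algebraMap K C r +
        (algebraMap K C r ^ 2 + algebraMap K C r + 1) * algebraMap K C d * (s ^ 2 +
          (algebraMap K C r + 1 + algebraMap K C t) * s +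
          (algebraMap K C r ^ 2 + algebraMap K C t * algebraMap K C r))) := by
      rw [e2]
      simp only [map_sub, map_add, map_mul, map_pow, map_one, AlgHom.commutes,
        Algebra.smul_def, map_ofNat, pow_two]
    have hY3 : φ (algebraMap K C r +
        (algebraMap K C r ^ 2 + algebraMap K C r + 1) * algebraMap K C d * (s ^ 2 +
          (algebraMap K C r + 1 + algebraMap K C t) * s +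
          (algebraMap K C r ^ 2 + algebraMap K C t * algebraMap K C r))) =
        r • (1 : A) + ((r ^ 2 + r + 1) * d) •
          (φ s * φ s + (r + 1 + t) • φ s + (r ^ 2 + t * r) • (1 : A)) := by
      simp only [map_add, map_mul, map_one, AlgHom.commutes, Algebra.smul_def, mul_one,
        pow_two]
    rw [hY2, hY3, ← hYA]
    exact conj huy _ _ _ _

end Pool.Agent.Helper49.PY
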